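import Pool.Agent.H7.GV.Stmts

/-!
# Triangles (`t = 3`), residues `r < (ω - 1) / 3`: statements of the board `gx`

`b = p + 3 = ω - 1`, `w = 0`, `u = 2`, `Δ = (p + 3) a + r`, `PrX p r`: `2 ≤ r`, `3 r ≤ p + 2` (so `p ≥ 4`,
`Pr0 p 0 r`). THEOREM: for large `a` the Turán graph with `(p + 4) a + r` vertices and `p + 4` parts has
the most triangles per vertex. Same definitions and rows as `gu8`, `gv9` (`LMB0`, `SIZ0`, `XGR0`, `GCO0`,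
`GLD0`, `CCK0`, `XSP0`, `ZYG`, `PRF`, `PHB`, `NET9`), `m9`, `w = 0`. Every row `XXXX` is the row `XXX` of `gu8` or
`XXX9` of `gv9` with the changes said in its docstring: copy the file and change the numbers. Only the
proof of BDAX is different (and short). Row `XXXX` = `def XXXXStmt : Prop`; file
`Pool/Agent/H<k>/GX/XXXX.lean`, `import Pool.Agent.H7.GX.Stmts`, namespace `Pool.GX7`, `open
Pool.Agent.H23.KT Pool.Agent.H46.KW Pool.KQ Pool.GT7 Pool.GU7 Pool.GV7`.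
-/

set_option autoImplicit false

open Finset

namespace Pool.GX7

open Pool.Agent.H23.KT Pool.Agent.H46.KW Pool.KQ Pool.GT7 Pool.GU7 Pool.GV7

/-- The conditions of the theorem. -/
structure PrX (p r : ℕ) : Prop where
  r2 : 2 ≤ r
  rb : 3 * r ≤ p + 2

/-- (GCX) Pointwise inequalities (`b = p + 3`, `c₁ = p + 2`). PROOF. (1) `Pr0 p 0 r` and the hypothesis of NET9
for `w = 0`: `2 r b ≤ (b-1)(b-r)` from `3 r ≤ b - 1`. (2) as GC8 (1) (its proof does not use `4 r ≤ b`). (3) as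
GC8 (3) with `u = 2`: for `B ≤ r - 1`: `ww = 0`, `3 B ≤ 3 (r-1) ≤ p + 2 - 3`. For `r ≤ B ≤ p + 1`, `q = B + 1`: `ww = b (q-r)/
((b-r) q)`; `q [(p+2)(1 + 2 ww) - 3 (q-1)] = F q`, `F q = (b-1)(q + 2 b (q-r)/(b-r)) - 3 q (q-1)` is concave, `F b = 0`,
`F r = r (b + 2 - 3 r) ≥ 3 r`, so `F q ≥ (b-q)/(b-r) F r ≥ 3 r/b` and `F q/q ≥ 1/(4 b^2)`. (4) `3 · 2 (r-1)(p+2) ≤ 2 (p-1)
(p+2) ≤ 2 p (p+1)`. -/
def GCXStmt : Prop :=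
  ∀ p r : ℕ, PrX p r →
    Pr0 p 0 r ∧ 2 * r * (p + 3) ≤ (p + 2) * ((0 + 1) * (p + 3 - r)) ∧
    (∀ B ≤ p + 2, ((p : ℝ) + 2 - B) * (B - 2 * ((r : ℝ) - 1)) ≤
      ((p : ℝ) + 3 - r) * (((p : ℝ) + 2) * ww p r B - B)) ∧
    (∀ B ≤ p + 1, 3 * (B : ℝ) + 1 / (4 * ((p : ℝ) + 3) ^ 2) ≤
      ((p : ℝ) + 2) * (1 + 2 * ww p r B)) ∧
    2 * ((r : ℝ) - 1) * ((p : ℝ) + 2) ≤ 2 / 3 * (p : ℝ) * ((p : ℝ) + 1)

/-- (NDMX) As `NDMStmt` (with `w = 0`: `choose B 1 = B`, so GC8 (2) is not needed) and the threshold `m9 - 1/12 =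
(2/3) p + 1/12`: `μ (b-2)/(b-1) - 2 (r-1) ≥ (1/12)(b-2)/(b-1) ≥ 1/16` by GCX (last). Needs GCX, PRF, CCK0 (1), GCO0.
So `(b-r)((b-1) T - ∑ B) ≥ a^b [(e1/8)(1/16) - K ε]`, `(b-1) T - ∑ B ≥ e1/(256 b) a^b` for `ε` small; PRF (6): `κ a^(b-1)
≤ ∑ B + ε a^b ≤ (b-1) T - e1/(512 b) a^b ≤ (1 - et) (b-1) T`, as `(b-1) T ≤ 2 b a^b` and `et = e1/(256 b^3 · 2 (b-1))`. -/
def NDMXStmt : Prop :=
  ∀ p r : ℕ, PrX p r → ∃ e₀ : ℝ, 0 < e₀ ∧ ∀ C : ℝ, ∃ a₀ : ℕ, ∀ a ≥ a₀,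
    ∀ {V : Type} [DecidableEq V] (G : SimpleGraph V) (e : ℝ) (W : Finset V)
    (P : Fin (p + 3) → Finset V) (U : Finset V), Str G p a e C W P U → 0 ≤ e → e ≤ e₀ →
    CB G W (p + 3) → ∀ z ∈ U,
    (m9 p - 1 / 12) * a ≤ ((nb G (un P) z).card : ℝ) →
    nd G p 0 r a (un P) z = 0

/-- (NDBX) As `NDBStmt` with `w = 0` and `m9` (`m9/(p+2) ≤ 2/3`). Needs GCX, PRF, CCK0 (1), GCO0. -/
def NDBXStmt : Prop :=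
  ∀ p r : ℕ, PrX p r → ∃ e₀ : ℝ, 0 < e₀ ∧ ∀ C : ℝ, ∃ a₀ : ℕ, ∀ a ≥ a₀,
    ∀ {V : Type} [DecidableEq V] (G : SimpleGraph V) (e : ℝ) (W : Finset V)
    (P : Fin (p + 3) → Finset V) (U : Finset V), Str G p a e C W P U → 0 ≤ e → e ≤ e₀ →
    CB G W (p + 3) → ∀ z ∈ U, ((nb G (un P) z).card : ℝ) ≤ m9 p * a →
    0 < nd G p 0 r a (un P) z →
    2 * nd G p 0 r a (un P) z + kc G (nb G (un P) z) 1 ≤
      ((p : ℝ) + 2 - 1 / (32 * ((p : ℝ) + 3) ^ 2)) * (a : ℝ)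

/-- (BDAX) Many vertices of small degree in `W = nb G univ z`. Needs ZYG, TTR (3). `b = p + 3`, `D = Δ`.
PROOF. `c = (b-1) D/b` (so `(b-1) a ≥ c - r`), `d = (2/3)(b-1) a ≤ (2/3) c`. `A' = W \ A`; `Y` = the `y ∈ A'` adjacent to
some `v ∈ A` and in a part of `v` (`y ∈ P_v i`); `W₃ = A' \ Y`; edges between `A` and `W₃` go from `v` to its exceptional
set: at most `C card A`. As in BDA: for `y ∈ Y` `card (nb G W y) ≤ (m9 + 1 + 2 b e1) a + r ≤ d` for `a` large (`m9 + 1 =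
(2/3)(p+2) - 1/6`, `2 b e1 ≤ 1/300`). `2 kc G W 2 = ∑_(y ∈ W) card (nb G W y) ≤ ∑_A κ + card Y d + 2 kc G W₃ 2 + e(W₃, Y) + C
card A`, `κ v = card (nb G W v) = kc G (co G v z) 1` (`kc .. 1 = card`), `2 kc G W₃ 2 ≤ ((b-1)/b) ζ^2` (ZYG, `ζ = card W₃`), `e(W₃, Y) ≤
η min d ζ` (`η = card Y`; every `y ∈ Y` has at most `d` neighbours in `W` and at most `ζ` in `W₃`). TTR (3): `2 TT ≥ 2
choose b 2 a^2 = (b-1) a · b a = (b-1) a (D - r)`. With `n = card A`, `n + η + ζ ≤ D`: `2 df - ∑_A ((b-1) a - κ) ≥ (b-1) a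
(D - r - n) - η d - ((b-1)/b) ζ^2 - η min d ζ - C n`, and `(b-1) a (D - r - n) ≥ (b-1) a (η + ζ) - b^2 r a ≥ c (η + ζ) - K a`.
It remains `η [c - d - min d ζ] + c ζ (1 - ζ/D) ≥ 0` (`((b-1)/b) ζ^2 = c ζ (ζ/D)`): `1 - ζ/D ≥ η/D`, `c/D = 1 - 1/b`, so it is
`≥ η [c - d - min d ζ + (1 - 1/b) ζ] ≥ η [c - d (1 + 1/b)] ≥ 0` (both for `ζ ≤ d` and `ζ > d`; `(2/3)(1 + 1/b) ≤ 1`). `C n ≤
δ n a` for `a` large. -/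
def BDAXStmt : Prop :=
  ∀ p r : ℕ, PrX p r → ∃ K : ℝ, 0 < K ∧ ∀ δ C : ℝ, 0 < δ → ∃ a₀ : ℕ, ∀ a ≥ a₀,
    ∀ {V : Type} [Fintype V] [DecidableEq V] (G : SimpleGraph V), G8 G p r a →
    ∀ (z : V) (A : Finset V), A ⊆ nb G univ z →
    (∀ v ∈ A, ∃ (e : ℝ) (P : Fin (p + 3) → Finset V) (U : Finset V),
      Str G p a e C (nb G univ v) P U ∧ 0 ≤ e ∧ e ≤ e1 p ∧
      ((Pool.KR.co G v z).card : ℝ) ≤ m9 p * a) →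
    ∑ v ∈ A, (((p : ℝ) + 2) * (a : ℝ) - (kc G (Pool.KR.co G v z) 1 : ℝ)) ≤
      2 * df G p 0 r a (nb G univ z) + K * (a : ℝ) + δ * A.card * (a : ℝ)

/-- (BUDX) As `BUDStmt`, `w = 0`. Needs NDMX, NDBX, BDAX. -/
def BUDXStmt : Prop :=
  ∀ p r : ℕ, PrX p r → ∀ C₀ : ℝ, 0 < C₀ → ∃ C₂ : ℝ, 0 < C₂ ∧ ∃ e₀ : ℝ, 0 < e₀ ∧ e₀ ≤ e1 p ∧
    ∀ C : ℝ, ∃ a₀ : ℕ, ∀ a ≥ a₀,
    ∀ {V : Type} [Fintype V] [DecidableEq V] (G : SimpleGraph V), G8 G p r a →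
    ∀ (e : ℝ), 0 ≤ e → e ≤ e₀ → ∀ (z : V) (A : Finset V)
    (P : V → Fin (p + 3) → Finset V) (U : V → Finset V), A ⊆ nb G univ z →
    (∀ v ∈ A, Str G p a e C (nb G univ v) (P v) (U v) ∧ z ∈ U v) →
    C₂ * (a : ℝ) ^ (0 + 1) ≤ df G p 0 r a (nb G univ z) →
    ∑ v ∈ A, nd G p 0 r a (un (P v)) z ≤
      df G p 0 r a (nb G univ z) - C₀ * (a : ℝ) ^ (0 + 1)

/-- (GGPX) As `GGPStmt` (`b ≥ 7`). Needs STG. -/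
def GGPXStmt : Prop :=
  ∀ p r : ℕ, PrX p r → ∃ e₀ : ℝ, 0 < e₀ ∧ e₀ ≤ e1 p ∧ ∀ (C : ℝ) (C₁ : ℕ), ∃ a₀ : ℕ,
    ∀ a ≥ a₀, ∀ {V : Type} [Fintype V] [DecidableEq V] (G : SimpleGraph V), G8 G p r a →
    ∀ (e : ℝ), 0 ≤ e → e ≤ e₀ → ∀ (v z : V) (P P' : Fin (p + 3) → Finset V) (U U' : Finset V),
    Str G p a e C (nb G univ v) P U → Str G p a e C (nb G univ z) P' U' → z ∈ U →
    a ^ (p + 4) ≤ (a + C₁) * kc G (nb G univ z) (p + 3) →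
    Pool.KR.co G v z ⊆ U ∪ U' ∧ v ∈ U'

/-- (PAYX) As `PAYStmt`, the case `w = 0`: `4 ≤ 2 (p+1) - 1` (`p ≥ 4`), no condition on `a`. -/
def PAYXStmt : Prop :=
  ∀ p r : ℕ, PrX p r → ∀ C : ℝ, 0 < C → ∃ a₀ : ℕ, ∀ a ≥ a₀,
    ∀ {V : Type} [Fintype V] [DecidableEq V] (G : SimpleGraph V) (Gd : Finset V)
    (P : V → Fin (p + 3) → Finset V) (U : V → Finset V),
    (∀ v ∈ Gd, un (P v) ⊆ nb G univ v ∧ ((U v).card : ℝ) ≤ C) →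
    (∀ v ∈ Gd, ∀ z ∈ U v, 0 ≤ TZ G p r (un (P v)) z) →
    (∀ v ∈ Gd, ∀ z ∈ Gd, z ∈ U v → Pool.KR.co G v z ⊆ U v ∪ U z ∧ v ∈ U z) →
    ∑ v ∈ Gd, ∑ z ∈ (U v).filter (fun z => z ∈ Gd), nd G p 0 r a (un (P v)) z ≤
      ∑ v ∈ Gd, (2 * ((p + 1).choose (0 + 1) : ℝ) - 1) * ((U v).card.choose 2 : ℝ) *
        (a : ℝ) ^ 0

/-- (LIPX) As `LIPStmt` / `LIP9Stmt`, `w = 0`; `kc G _ 0 = 1` replaces KU0. Needs CCK0, DKU, DML, XSP0, NET9, SIZ0,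
XGR0, LMB0, GCO0, GCX (Pr0 and the hypothesis of NET9). -/
def LIPXStmt : Prop :=
  ∀ p r : ℕ, PrX p r → ∃ e₀ : ℝ, 0 < e₀ ∧ ∀ e : ℝ, 0 < e → e ≤ e₀ → ∀ C : ℝ, 0 < C →
    ∃ a₀ : ℕ, ∀ a ≥ a₀, ∀ {V : Type} [DecidableEq V] (G : SimpleGraph V) (W : Finset V)
    (P : Fin (p + 3) → Finset V) (U : Finset V), Str G p a e C W P U → CB G W (p + 3) →
    W.card ≤ (p + 3) * a + r →
    Ph G p 0 r a W + (2 * ((p + 1).choose (0 + 1) : ℝ) - 1) * (U.card.choose 2 : ℝ) *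
      (a : ℝ) ^ 0 ≤ df G p 0 r a W + ∑ z ∈ U, nd G p 0 r a (un P) z

/-- (SUMX) As `SUM8Stmt`. Needs PHB, BUDX, LIPX, GGPX, PAYX, STC, MMC, CCK0, TTR (3). -/
def SUMXStmt : Prop :=
  ∀ p r : ℕ, PrX p r → ∃ a₀ : ℕ, ∀ a ≥ a₀, ∀ {V : Type} [Fintype V] [DecidableEq V]
    (G : SimpleGraph V), G8 G p r a →
    ∑ v, Ph G p 0 r a (nb G univ v) ≤ ∑ v, df G p 0 r a (nb G univ v)

/-- (FNX) The theorem. Needs SUMX, GLD0, TCT. -/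
def FNXStmt : Prop :=
  ∀ p r : ℕ, PrX p r → ∃ a₀ : ℕ, ∀ a ≥ a₀, ∀ (m : ℕ) (H : SimpleGraph (Fin m)),
    (∀ v, (H.neighborSet v).ncard ≤ (p + 3) * a + r) → H.CliqueFree (p + 5) →
      {s : Finset (Fin m) | H.IsNClique 3 s}.ncard * ((p + 4) * a + r) ≤
        {s : Finset (Fin ((p + 4) * a + r)) |
          (SimpleGraph.turanGraph ((p + 4) * a + r) (p + 4)).IsNClique 3 s}.ncard * m

end Pool.GX7
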